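import Pool.Agent.Lib.MP_7f190d_al.H83.WA

/-!
# Module W-A: W4 (the family which is killed)
-/

set_option autoImplicit false

namespace Pool.Agent.Lib.MP_7f190d_al

namespace WA

open Subgroup

variable {Γ : Type} [Group Γ] {z : Γ}

lemma CM_conj (hz : ∀ g, g * z = z * g) (g a b : Γ) :
    CM z (g * a * g⁻¹) (g * b * g⁻¹) ↔ CM z a b := by
  unfold CM
  have h : g * a * g⁻¹ * (g * b * g⁻¹) * (g * a * g⁻¹)⁻¹ * (g * b * g⁻¹)⁻¹ =
      g * (a * b * a⁻¹ * b⁻¹) * g⁻¹ := by group
  rw [h]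
  constructor
  · intro h1
    have h2 := mem_conj hz g⁻¹ h1
    have h3 : a * b * a⁻¹ * b⁻¹ = g * (a * b * a⁻¹ * b⁻¹) * g⁻¹ := by
      rw [← h2]; group
    rw [h3]; exact h1
  · intro h1
    rw [mem_conj hz g h1]; exact h1

lemma FO_conj (hz : ∀ g, g * z = z * g) (g a : Γ) : FO z (g * a * g⁻¹) ↔ FO z a := by
  unfold FO
  have key : ∀ m : ℕ, (g * a * g⁻¹) ^ m ∈ zpowers z ↔ a ^ m ∈ zpowers z := by
    intro m
    rw [conj_pow]
    constructor
    · intro h1
      have h2 := mem_conj hz g⁻¹ h1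
      have h3 : a ^ m = g * a ^ m * g⁻¹ := by
        rw [← h2]; group
      rw [h3]; exact h1
    · intro h1
      rw [mem_conj hz g h1]; exact h1
  simp only [key]

/-- `h` is a generator of the killed subgroup `C` -/
structure PGen (z : Γ) {X : Type} [MulAction Γ X] (M : GMet X) (D : ℕ) (C : Set Γ) (h : Γ) :
    Prop where
  inf : ¬ FO z h
  cent : ∀ g, CM z g h ↔ ∃ a b : ℤ, g = h ^ a * z ^ b
  mem : ∀ g, g ∈ C ↔ CM z g h
  ne : ∃ x, M.d x (h • x) ≤ 110 * D

/-- the conjugate of a set -/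
def act (g : Γ) (C : Set Γ) : Set Γ := {x | g⁻¹ * x * g ∈ C}

lemma act_one (C : Set Γ) : act 1 C = C := by
  ext x; simp [act]

lemma act_mul (g g' : Γ) (C : Set Γ) : act (g * g') C = act g (act g' C) := by
  ext x; simp [act, mul_assoc]

lemma PGen.conj {X : Type} [MulAction Γ X] {M : GMet X} {D : ℕ} {C : Set Γ} {h : Γ}
    (hz : ∀ g, g * z = z * g) (hiso : Iso Γ M) (H : PGen z M D C h) (g : Γ) :
    PGen z M D (act g C) (g * h * g⁻¹) where
  inf := by rw [FO_conj hz]; exact H.inf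
  cent := by
    intro x
    have h1 : CM z x (g * h * g⁻¹) ↔ CM z (g⁻¹ * x * g) h := by
      rw [← CM_conj hz g (g⁻¹ * x * g) h]
      have : g * (g⁻¹ * x * g) * g⁻¹ = x := by group
      rw [this]
    rw [h1, H.cent]
    constructor
    · rintro ⟨a, b, hab⟩
      refine ⟨a, b, ?_⟩
      have h2 : x = g * (h ^ a * z ^ b) * g⁻¹ := by rw [← hab]; group
      rw [h2, conj_zpow]
      calc g * (h ^ a * z ^ b) * g⁻¹ = g * h ^ a * (z ^ b * g⁻¹) := by group
        _ = g * h ^ a * (g⁻¹ * z ^ b) := by rw [zc hz g⁻¹ b]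
        _ = _ := by group
    · rintro ⟨a, b, hab⟩
      refine ⟨a, b, ?_⟩
      rw [hab, conj_zpow]
      calc g⁻¹ * (g * h ^ a * g⁻¹ * z ^ b) * g = h ^ a * (g⁻¹ * z ^ b) * g := by group
        _ = h ^ a * (z ^ b * g⁻¹) * g := by rw [zc hz g⁻¹ b]
        _ = _ := by group
  mem := by
    intro x
    have h1 : CM z x (g * h * g⁻¹) ↔ CM z (g⁻¹ * x * g) h := by
      rw [← CM_conj hz g (g⁻¹ * x * g) h]
      have : g * (g⁻¹ * x * g) * g⁻¹ = x := by group
      rw [this]
    rw [h1]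
    exact H.mem _
  ne := by
    obtain ⟨x, hx⟩ := H.ne
    refine ⟨g • x, ?_⟩
    rw [← mul_smul]
    have : g * h * g⁻¹ * g = g * h := by group
    rw [this, mul_smul, hiso]
    exact hx

lemma PGen.not_mem {X : Type} [MulAction Γ X] {M : GMet X} {D : ℕ} {C : Set Γ} {h : Γ}
    (H : PGen z M D C h) : h ∉ zpowers z := fun h1 => H.inf ⟨1, le_refl 1, by simpa using h1⟩

lemma PGen.stab {X : Type} [MulAction Γ X] {M : GMet X} {D : ℕ} {C : Set Γ} {h : Γ}
    (hz : ∀ g, g * z = z * g)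
    (hw1 : ∀ c g : Γ, c ∉ Subgroup.zpowers z → CM z c (g * c * g⁻¹) → CM z g c)
    (H : PGen z M D C h) (g : Γ) :
    act g C = C ↔ ∃ a b : ℤ, g = h ^ a * z ^ b := by
  constructor
  · intro hg
    have h1 : h ∈ C := (H.mem h).2 (CM_refl z h)
    have h2 : g * h * g⁻¹ ∈ C := by
      rw [← hg]
      show g⁻¹ * (g * h * g⁻¹) * g ∈ C
      have : g⁻¹ * (g * h * g⁻¹) * g = h := by group
      rw [this]; exact h1
    have h3 : CM z (g * h * g⁻¹) h := (H.mem _).1 h2
    exact (H.cent g).1 (hw1 h g H.not_mem (CM_symm h3))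
  · rintro hg
    ext x
    show g⁻¹ * x * g ∈ C ↔ x ∈ C
    constructor
    · intro h1
      have h2 := (H.cent _).1 ((H.mem _).1 h1)
      have h3 := form_comm hz hg h2
      have h4 : g⁻¹ * x * g = x := by
        have h5 : x = g * (g⁻¹ * x * g) * g⁻¹ := by group
        rw [h3] at h5
        have h6 : g⁻¹ * x * g * g * g⁻¹ = g⁻¹ * x * g := by group
        rw [h6] at h5
        exact h5.symm
      rw [h4] at h1; exact h1
    · intro h1
      have h2 := (H.cent _).1 ((H.mem _).1 h1)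
      have h3 := form_comm hz hg h2
      have h4 : g⁻¹ * x * g = x := by
        rw [mul_assoc, ← h3]; group
      rw [h4]; exact h1

theorem w4 (hI5 : I5Statement) : W4Statement := by
  intro Γ _ z X _ M D L A T n hn hS
  have hz := hS.central
  have hw1 : ∀ c g : Γ, c ∉ Subgroup.zpowers z → CM z c (g * c * g⁻¹) → CM z g c :=
    fun c g => w1 Γ z X M D L A T n hn hS c g
  let J : Type := {C : Set Γ // ∃ h, PGen z M D C h}
  let instJ : MulAction Γ J :=
    { smul := fun g C => ⟨act g C.1, by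
        obtain ⟨h, hh⟩ := C.2
        exact ⟨_, hh.conj hz hS.iso g⟩⟩
      one_smul := fun C => Subtype.ext (act_one C.1)
      mul_smul := fun g g' C => Subtype.ext (act_mul g g' C.1) }
  have hsmul : ∀ (g : Γ) (C : J), (g • C).1 = act g C.1 := fun g C => rfl
  -- representatives
  let rep : J → J := fun j => (Quotient.mk (MulAction.orbitRel Γ J) j).out
  have hrep : ∀ j : J, ∃ γ : Γ, γ • rep j = j := by
    intro j
    have h1 : (Quotient.mk (MulAction.orbitRel Γ J) j) =
        Quotient.mk (MulAction.orbitRel Γ J) (rep j) := (Quotient.out_eq _).symm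
    have h2 : (MulAction.orbitRel Γ J) j (rep j) := Quotient.exact h1
    rw [MulAction.orbitRel_apply] at h2
    obtain ⟨γ, hγ⟩ := h2
    exact ⟨γ, hγ⟩
  have hrep_smul : ∀ (g : Γ) (j : J), rep (g • j) = rep j := by
    intro g j
    have h1 : (Quotient.mk (MulAction.orbitRel Γ J) (g • j)) =
        Quotient.mk (MulAction.orbitRel Γ J) j := by
      apply Quotient.sound
      show (MulAction.orbitRel Γ J) (g • j) j
      rw [MulAction.orbitRel_apply]
      exact ⟨g, rfl⟩
    show (Quotient.mk (MulAction.orbitRel Γ J) (g • j)).out = _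
    rw [h1]
  choose γ hγ using hrep
  let h0 : J → Γ := fun C => C.2.choose
  have hh0 : ∀ C : J, PGen z M D C.1 (h0 C) := fun C => C.2.choose_spec
  let h : J → Γ := fun j => γ j * h0 (rep j) * (γ j)⁻¹
  have hh : ∀ j : J, PGen z M D j.1 (h j) := by
    intro j
    have h1 := (hh0 (rep j)).conj hz hS.iso (γ j)
    rw [← hsmul, hγ] at h1
    exact h1
  refine ⟨J, instJ, h, ?_, ?_, ?_, ?_, ?_, ?_, ?_⟩
  · -- conj
    intro g j
    show γ (g • j) * h0 (rep (g • j)) * (γ (g • j))⁻¹ = g * (γ j * h0 (rep j) * (γ j)⁻¹) * g⁻¹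
    rw [hrep_smul]
    have h1 : γ (g • j) • rep j = (g * γ j) • rep j := by
      have := hγ (g • j)
      rw [hrep_smul] at this
      rw [this, mul_smul, hγ]
    have h2 : ((g * γ j)⁻¹ * γ (g • j)) • rep j = rep j := by
      rw [mul_smul, h1, ← mul_smul]; simp
    have h3 : act ((g * γ j)⁻¹ * γ (g • j)) (rep j).1 = (rep j).1 := by
      rw [← hsmul, h2]
    have h4 := ((hh0 (rep j)).stab hz hw1 _).1 h3
    have h5 := form_comm hz h4 (g' := h0 (rep j)) ⟨1, 0, by simp⟩
    calc γ (g • j) * h0 (rep j) * (γ (g • j))⁻¹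
        = (g * γ j) * (((g * γ j)⁻¹ * γ (g • j)) * h0 (rep j)) * (γ (g • j))⁻¹ := by group
      _ = (g * γ j) * (h0 (rep j) * ((g * γ j)⁻¹ * γ (g • j))) * (γ (g • j))⁻¹ := by rw [h5]
      _ = _ := by group
  · -- inf
    intro j; exact (hh j).inf
  · -- stab
    intro g j
    rw [← (hh j).stab hz hw1 g, ← hsmul]
    exact Subtype.ext_iff
  · -- cent
    intro g j; exact (hh j).cent g
  · -- uniq
    intro i j c hc hci hcj
    have key : ∀ i : J, (∃ a b : ℤ, c = h i ^ a * z ^ b) → ∀ g, g ∈ i.1 ↔ CM z g c := by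
      rintro i ⟨a, b, hab⟩ g
      rw [(hh i).mem]
      constructor
      · intro h1
        rw [hab]
        exact CM_zpow_right hz h1 a b
      · intro h1
        obtain ⟨k, hk⟩ := hS.C1 c hc
        have h2 : CM z (h i) c := by
          apply CM_of_comm
          exact form_comm hz (k := h i) ⟨1, 0, by simp⟩ ⟨a, b, hab⟩
        exact CM_of_comm (cent_comm hz hk h1 h2)
    apply Subtype.ext
    ext g
    rw [key i hci, key j hcj]
  · -- short
    intro f hf ⟨x, hx⟩
    have hfz : f ∉ zpowers z := fun h1 => hf ⟨1, le_refl 1, by simpa using h1⟩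
    obtain ⟨k, hk⟩ := hS.C1 f hfz
    obtain ⟨a, b, hab⟩ := (hk f).1 (CM_refl z f)
    have ha : a ≠ 0 := by
      rintro rfl
      apply hfz
      rw [hab]
      simp only [zpow_zero, one_mul]
      exact ⟨b, rfl⟩
    -- replace k by its inverse if necessary
    have hk' : ∃ k' : Γ, (∀ g : Γ, CM z g f ↔ ∃ i j : ℤ, g = k' ^ i * z ^ j) ∧
        f = k' ^ (a.natAbs : ℤ) * z ^ b := by
      rcases Int.natAbs_eq a with h1 | h1
      · exact ⟨k, hk, by rw [← h1]; exact hab⟩
      · refine ⟨k⁻¹, ?_, ?_⟩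
        · intro g
          rw [hk]
          constructor
          · rintro ⟨i, j, rfl⟩
            exact ⟨-i, j, by rw [inv_zpow, zpow_neg, inv_inv]⟩
          · rintro ⟨i, j, rfl⟩
            exact ⟨-i, j, by rw [inv_zpow, zpow_neg]⟩
        · rw [hab, inv_zpow, ← zpow_neg, ← h1]
    obtain ⟨k', hk', hfk⟩ := hk'
    set N := a.natAbs with hN
    have hN1 : 1 ≤ N := Int.natAbs_pos.mpr ha
    have hkf : ¬ FO z k' := by
      rintro ⟨m, hm, hkm⟩
      apply hf
      refine ⟨m, hm, ?_⟩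
      rw [hfk]
      have hkz : Commute (k' ^ (N : ℤ)) (z ^ b) :=
        (show Commute (k' ^ (N : ℤ)) z from hz _).zpow_right b
      rw [hkz.mul_pow]
      apply mul_mem
      · have : (k' ^ (N : ℤ)) ^ m = (k' ^ m) ^ (N : ℤ) := by
          rw [← zpow_natCast, ← zpow_natCast, ← zpow_mul, ← zpow_mul, mul_comm]
        rw [this]
        exact zpow_mem hkm _
      · exact pow_mem (show z ^ b ∈ zpowers z from ⟨b, rfl⟩) m
    have hcent : ∀ g, CM z g k' ↔ ∃ a b : ℤ, g = k' ^ a * z ^ b := by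
      intro g
      rw [← hk']
      constructor
      · intro h1
        rw [hfk]; exact CM_zpow_right hz h1 _ _
      · intro h1
        apply CM_of_comm
        exact form_comm hz (k := k') ((hk' g).1 h1) ⟨1, 0, by simp⟩
    -- displacement
    have hmin : ∃ y, ∀ y', M.d y (k' • y) ≤ M.d y' (k' • y') := by
      obtain ⟨y0⟩ := hS.ne
      have : ∃ m, ∃ y, M.d y (k' • y) = m := ⟨_, y0, rfl⟩
      classical
      obtain ⟨y, hy⟩ := Nat.find_spec this
      refine ⟨y, fun y' => ?_⟩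
      rw [hy]
      exact Nat.find_min' this ⟨y', rfl⟩
    obtain ⟨y, hy⟩ := hmin
    have h5 := (hI5 Γ X M D hS.hyp hS.iso k' _ hy).2 x N
    have hzb : ∀ (b : ℤ) (x : X), z ^ b • x = x := by
      intro b x
      have h1 : z ∈ MulAction.stabilizer Γ x := hS.ztriv x
      exact MulAction.mem_stabilizer_iff.1 (zpow_mem h1 b)
    have h6 : k' ^ N • x = f • x := by
      rw [hfk, mul_smul, hzb, zpow_natCast]
    rw [h6] at h5
    have h7 : M.d y (k' • y) ≤ 110 * D := by
      by_contra h8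
      push Not at h8
      have hD := hS.hD
      have h9 : N * (110 * D + 1) ≤ N * M.d y (k' • y) := Nat.mul_le_mul_left N h8
      have h10 : N * (110 * D + 1) ≤ 100 * D + N * (6 * D + 1) := le_trans h9 (by omega)
      have h11 : N * (110 * D + 1) = N * (104 * D) + N * (6 * D + 1) := by ring
      have h12 : N * (104 * D) ≤ 100 * D := by omega
      have h13 : 1 * (104 * D) ≤ N * (104 * D) := Nat.mul_le_mul_right _ hN1
      omega
    refine ⟨⟨{g | CM z g k'}, k', ⟨hkf, hcent, fun g => Iff.rfl, ⟨y, h7⟩⟩⟩, ?_⟩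
    refine ((hh _).cent f).1 (((hh _).mem f).1 ?_)
    show CM z f k'
    rw [hcent, ← hk']
    exact CM_refl z f
  · -- ne
    intro j; exact (hh j).ne

end WA

end Pool.Agent.Lib.MP_7f190d_al
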