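import Pool.Agent.Lib.MP_7f190d_al.Interfaces
import Pool.Agent.Lib.MP_7f190d_al.Basic

/-!
# Module W-A: W1 and W4
-/

set_option autoImplicit false

namespace Pool.Agent.Lib.MP_7f190d_al

namespace WA

open Subgroup

variable {Γ : Type} [Group Γ] {z : Γ}

lemma zc (hz : ∀ g, g * z = z * g) (g : Γ) (b : ℤ) : g * z ^ b = z ^ b * g :=
  (Commute.zpow_right (show Commute g z from hz g) b).eq

lemma mem_conj (hz : ∀ g, g * z = z * g) {c : Γ} (g : Γ) (hc : c ∈ zpowers z) :
    g * c * g⁻¹ = c := by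
  obtain ⟨b, rfl⟩ := hc
  show g * z ^ b * g⁻¹ = z ^ b
  rw [zc hz]; group

lemma CM_iff (z a b : Γ) : CM z a b ↔ ∃ e : ℤ, a * b * a⁻¹ = z ^ e * b := by
  constructor
  · rintro ⟨e, he⟩
    refine ⟨e, ?_⟩
    have he' : z ^ e = a * b * a⁻¹ * b⁻¹ := he
    rw [he']; group
  · rintro ⟨e, he⟩
    refine ⟨e, ?_⟩
    show z ^ e = a * b * a⁻¹ * b⁻¹
    rw [he]; group

lemma CM_symm {a b : Γ} (h : CM z a b) : CM z b a := by
  obtain ⟨e, he⟩ := h
  refine ⟨-e, ?_⟩
  have he' : z ^ e = a * b * a⁻¹ * b⁻¹ := he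
  show z ^ (-e) = b * a * b⁻¹ * a⁻¹
  rw [zpow_neg, he']; group

lemma CM_refl (z a : Γ) : CM z a a := ⟨0, by simp⟩

lemma CM_of_comm {a b : Γ} (h : a * b = b * a) : CM z a b := by
  refine ⟨0, ?_⟩
  show z ^ (0:ℤ) = a * b * a⁻¹ * b⁻¹
  rw [h]; group

/-- conjugation form for powers -/
lemma conjz {g c : Γ} {e : ℤ} (hz : ∀ g, g * z = z * g) (h : g * c * g⁻¹ = z ^ e * c)
    (a : ℤ) : g * c ^ a * g⁻¹ = z ^ (e * a) * c ^ a := by
  have h1 : g * c ^ a * g⁻¹ = (g * c * g⁻¹) ^ a := (_root_.conj_zpow).symm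
  rw [h1, h]
  have hcomm : Commute (z ^ e) c := by
    have := zc hz c e
    exact this.symm
  rw [hcomm.mul_zpow, ← zpow_mul]

lemma CM_zpow_right (hz : ∀ g, g * z = z * g) {g c : Γ} (h : CM z g c) (a b : ℤ) :
    CM z g (c ^ a * z ^ b) := by
  rw [CM_iff] at h ⊢
  obtain ⟨e, he⟩ := h
  refine ⟨e * a, ?_⟩
  have h1 := conjz hz he a
  calc g * (c ^ a * z ^ b) * g⁻¹ = g * c ^ a * (z ^ b * g⁻¹) := by group
    _ = g * c ^ a * (g⁻¹ * z ^ b) := by rw [zc hz g⁻¹ b]
    _ = (g * c ^ a * g⁻¹) * z ^ b := by group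
    _ = z ^ (e * a) * (c ^ a * z ^ b) := by rw [h1]; group

/-- elements of the form `k ^ i * z ^ j` commute -/
lemma form_comm (hz : ∀ g, g * z = z * g) {k g g' : Γ} (h : ∃ i j : ℤ, g = k ^ i * z ^ j)
    (h' : ∃ i j : ℤ, g' = k ^ i * z ^ j) : g * g' = g' * g := by
  obtain ⟨i, j, rfl⟩ := h
  obtain ⟨i', j', rfl⟩ := h'
  have hk : Commute k k := Commute.refl k
  have hkz : ∀ a : ℤ, Commute (k ^ a) z := fun a => (show Commute (k ^ a) z from hz _)
  have h1 : Commute (k ^ i) (k ^ i') := Commute.zpow_zpow hk i i'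
  have h2 : Commute (k ^ i) (z ^ j') := (hkz i).zpow_right j'
  have h3 : Commute (z ^ j) (k ^ i') := ((hkz i').zpow_right j).symm
  have h4 : Commute (z ^ j) (z ^ j') := Commute.zpow_zpow (Commute.refl z) j j'
  exact ((h1.mul_right h2).mul_left (h3.mul_right h4)).eq

lemma FO_of_zpow {k : Γ} {m : ℤ} (hm : m ≠ 0) (h : k ^ m ∈ zpowers z) : FO z k := by
  refine ⟨m.natAbs, Int.natAbs_pos.mpr hm, ?_⟩
  rcases Int.natAbs_eq m with h1 | h1
  · rw [h1, zpow_natCast] at h
    exact h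
  · rw [h1, zpow_neg, zpow_natCast] at h
    have := inv_mem h
    rwa [inv_inv] at this

lemma FO_form {k : Γ} {a b : ℤ} {m : ℕ} (hm : 1 ≤ m) (hz : ∀ g, g * z = z * g) (ha : a ≠ 0)
    (h : (k ^ a * z ^ b) ^ m ∈ zpowers z) : FO z k := by
  have hkz : Commute (k ^ a) (z ^ b) := (show Commute (k ^ a) z from hz _).zpow_right b
  rw [hkz.mul_pow] at h
  have h2 : k ^ (a * (m : ℤ)) ∈ zpowers z := by
    have h3 : (z ^ b) ^ m ∈ zpowers z := ⟨b * m, by simp [zpow_mul]⟩
    have h4 := mul_mem h (inv_mem h3)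
    rw [mul_inv_cancel_right] at h4
    rw [zpow_mul]
    simpa using h4
  refine FO_of_zpow (m := a * (m : ℤ)) ?_ h2
  have : (m : ℤ) ≠ 0 := by
    have : 0 < (m:ℤ) := by exact_mod_cast hm
    omega
  exact mul_ne_zero ha this

lemma zpow_inj (hinf : ∀ m : ℤ, z ^ m = 1 → m = 0) {a b : ℤ} (h : z ^ a = z ^ b) : a = b := by
  have : z ^ (a - b) = 1 := by rw [zpow_sub, h]; group
  have := hinf _ this
  omega

/-- centralisers modulo `z` are abelian -/
lemma cent_comm (hz : ∀ g, g * z = z * g) {c k : Γ}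
    (hk : ∀ g : Γ, CM z g c ↔ ∃ i j : ℤ, g = k ^ i * z ^ j) {g g' : Γ} (h : CM z g c)
    (h' : CM z g' c) : g * g' = g' * g :=
  form_comm hz ((hk g).1 h) ((hk g').1 h')

theorem w1 : W1Statement := by
  intro Γ _ z X _ M D L A T n hn hS c g hc hcg
  have hz := hS.central
  have hinf := hS.inf
  obtain ⟨k, hk⟩ := hS.C1 c hc
  -- c and its conjugate
  obtain ⟨a, b, hcab⟩ := (hk c).1 (CM_refl z c)
  have hcg' : CM z (g * c * g⁻¹) c := CM_symm hcg
  obtain ⟨a', b', hgab⟩ := (hk _).1 hcg'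
  have ha : a ≠ 0 := by
    rintro rfl
    apply hc
    rw [hcab]
    simp only [zpow_zero, one_mul]
    exact ⟨b, rfl⟩
  have hgc : g * c * g⁻¹ ∉ zpowers z := by
    intro h
    apply hc
    have h1 := mem_conj hz g⁻¹ h
    have h2 : c = g * c * g⁻¹ := by
      rw [← h1]; group
    rw [h2]; exact h
  have ha' : a' ≠ 0 := by
    rintro rfl
    apply hgc
    rw [hgab]
    simp only [zpow_zero, one_mul]
    exact ⟨b', rfl⟩
  by_cases hfo : FO z c
  · -- finite order
    obtain ⟨m, hm, hcm⟩ := hfo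
    have hkz : k ∉ zpowers z := by
      rintro ⟨t, ht⟩
      apply hc
      have ht' : z ^ t = k := ht
      rw [hcab, ← ht', ← zpow_mul, ← zpow_add]
      exact ⟨_, rfl⟩
    have hkf : FO z k := by
      rw [hcab] at hcm
      exact FO_form hm hz ha hcm
    obtain ⟨κ, hκ, hkκ⟩ := hS.C3 k hkz hkf
    obtain ⟨u, hu⟩ := hkκ
    have hu' : κ ^ u = k := hu
    have hzκ : z = κ ^ (n : ℤ) := by rw [← hκ]; simp
    have hcκ : ∃ s : ℤ, c = κ ^ s := ⟨u * a + n * b, by
      rw [hcab, ← hu', hzκ, ← zpow_mul, ← zpow_mul, ← zpow_add]⟩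
    have hgκ : ∃ s : ℤ, g * c * g⁻¹ = κ ^ s := ⟨u * a' + n * b', by
      rw [hgab, ← hu', hzκ, ← zpow_mul, ← zpow_mul, ← zpow_add]⟩
    obtain ⟨s, hs⟩ := hcκ
    obtain ⟨s', hs'⟩ := hgκ
    have e1 : c ^ (n : ℤ) = z ^ s := by
      rw [hs, hzκ, ← zpow_mul, ← zpow_mul, mul_comm]
    have e2 : (g * c * g⁻¹) ^ (n : ℤ) = z ^ s' := by
      rw [hs', hzκ, ← zpow_mul, ← zpow_mul, mul_comm]
    have e3 : (g * c * g⁻¹) ^ (n : ℤ) = z ^ s := by
      rw [_root_.conj_zpow, e1]
      exact mem_conj hz g ⟨s, rfl⟩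
    have : s = s' := zpow_inj hinf (e3.symm.trans e2)
    apply CM_of_comm
    have h5 : g * c * g⁻¹ = c := by rw [hs', ← this, ← hs]
    calc g * c = (g * c * g⁻¹) * g := by group
      _ = c * g := by rw [h5]
  · -- infinite order
    have hkf : ¬ FO z k := by
      rintro ⟨m, hm, hkm⟩
      apply hfo
      refine ⟨m, hm, ?_⟩
      rw [hcab]
      have hkz : Commute (k ^ a) (z ^ b) := (show Commute (k ^ a) z from hz _).zpow_right b
      rw [hkz.mul_pow]
      apply mul_mem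
      · have : (k ^ a) ^ m = (k ^ m) ^ a := by
          rw [← zpow_natCast, ← zpow_natCast, ← zpow_mul, ← zpow_mul, mul_comm]
        rw [this]
        exact zpow_mem hkm a
      · exact pow_mem (show z ^ b ∈ zpowers z from ⟨b, rfl⟩) m
    -- the centralisers of c and of its conjugate agree
    have hC : ∀ x, CM z x (g * c * g⁻¹) ↔ CM z x c := by
      intro x
      have hka' : k ^ a' ∉ zpowers z := fun h => hkf (FO_of_zpow ha' h)
      obtain ⟨k₂, hk₂⟩ := hS.C1 _ hka'
      constructor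
      · intro h
        have h1 : CM z x (k ^ a') := by
          have h2 := CM_zpow_right hz h 1 (-b')
          have h3 : (g * c * g⁻¹) ^ (1:ℤ) * z ^ (-b') = k ^ a' := by
            rw [hgab, zpow_one]; group
          rwa [h3] at h2
        have h4 : CM z c (k ^ a') := by
          apply CM_of_comm
          exact form_comm hz (k := k) (g := c) (g' := k ^ a') ⟨a, b, hcab⟩ ⟨a', 0, by simp⟩
        exact CM_of_comm (cent_comm hz hk₂ h1 h4)
      · intro h
        have h1 := (hk x).1 h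
        have h2 : ∃ i j : ℤ, g * c * g⁻¹ = k ^ i * z ^ j := ⟨a', b', hgab⟩
        exact CM_of_comm (form_comm hz h1 h2)
    have hkc : CM z k c := (hk k).2 ⟨1, 0, by simp⟩
    -- g k g⁻¹ ∈ C(c)
    have h1 : CM z (g * k * g⁻¹) c := by
      rw [← hC]
      obtain ⟨e, he⟩ := (CM_iff z k c).1 hkc
      rw [CM_iff]
      refine ⟨e, ?_⟩
      calc g * k * g⁻¹ * (g * c * g⁻¹) * (g * k * g⁻¹)⁻¹ = g * (k * c * k⁻¹) * g⁻¹ := by group
        _ = g * (z ^ e * c) * g⁻¹ := by rw [he]
        _ = g * z ^ e * (c * g⁻¹) := by group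
        _ = z ^ e * (g * c * g⁻¹) := by rw [zc hz]; group
    have h2 : CM z (g⁻¹ * k * g) c := by
      have h3 : CM z k (g * c * g⁻¹) := (hC k).2 hkc
      obtain ⟨e, he⟩ := (CM_iff z _ _).1 h3
      rw [CM_iff]
      refine ⟨e, ?_⟩
      calc g⁻¹ * k * g * c * (g⁻¹ * k * g)⁻¹ = g⁻¹ * (k * (g * c * g⁻¹) * k⁻¹) * g := by group
        _ = g⁻¹ * (z ^ e * (g * c * g⁻¹)) * g := by rw [he]
        _ = g⁻¹ * z ^ e * (g * c) := by group
        _ = z ^ e * c := by rw [zc hz]; group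
    obtain ⟨e, f, hef⟩ := (hk _).1 h1
    obtain ⟨e', f', hef'⟩ := (hk _).1 h2
    have hzero : ∀ m : ℤ, k ^ m ∈ zpowers z → m = 0 := by
      intro m hm
      by_contra h0
      exact hkf (FO_of_zpow h0 hm)
    have hee : e * e' = 1 := by
      have h3 : k = g * (k ^ e' * z ^ f') * g⁻¹ := by rw [← hef']; group
      have h4 : k = (k ^ e * z ^ f) ^ e' * z ^ f' := by
        calc k = g * (k ^ e' * z ^ f') * g⁻¹ := h3
          _ = g * k ^ e' * (z ^ f' * g⁻¹) := by group
          _ = (g * k ^ e' * g⁻¹) * z ^ f' := by rw [← zc hz g⁻¹ f']; group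
          _ = (g * k * g⁻¹) ^ e' * z ^ f' := by rw [_root_.conj_zpow]
          _ = _ := by rw [hef]
      have hkz : Commute (k ^ e) (z ^ f) := (show Commute (k ^ e) z from hz _).zpow_right f
      rw [hkz.mul_zpow, ← zpow_mul, ← zpow_mul] at h4
      have h5 : k ^ (e * e' - 1) ∈ zpowers z := by
        refine ⟨-(f * e' + f'), ?_⟩
        show z ^ (-(f * e' + f')) = k ^ (e * e' - 1)
        have h6 : k * k⁻¹ = 1 := by group
        have h7 : k ^ (e * e' - 1) * (z ^ (f * e' + f')) = 1 := by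
          calc k ^ (e * e' - 1) * (z ^ (f * e' + f'))
              = k⁻¹ * (k ^ (e * e') * z ^ (f * e') * z ^ f') := by
                rw [zpow_add]; group
            _ = k⁻¹ * k := by rw [← h4]
            _ = 1 := by group
        rw [zpow_neg]
        exact (eq_inv_of_mul_eq_one_left h7).symm
      have := hzero _ h5
      omega
    rcases Int.mul_eq_one_iff_eq_one_or_neg_one.1 hee with ⟨he1, -⟩ | ⟨he1, -⟩
    · -- e = 1
      subst he1
      have h3 : g * k * g⁻¹ = z ^ f * k := by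
        rw [hef, zpow_one]; exact zc hz k f
      have h4 : CM z g k := (CM_iff z g k).2 ⟨f, h3⟩
      rw [hcab]
      exact CM_zpow_right hz h4 a b
    · -- e = -1
      subst he1
      exfalso
      have h3 : g * k * g⁻¹ = k⁻¹ * z ^ f := by rw [hef, zpow_neg, zpow_one]
      have h4 : (g * g) * k * (g * g)⁻¹ = k := by
        calc (g * g) * k * (g * g)⁻¹ = g * (g * k * g⁻¹) * g⁻¹ := by group
          _ = g * (k⁻¹ * z ^ f) * g⁻¹ := by rw [h3]
          _ = g * k⁻¹ * (z ^ f * g⁻¹) := by group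
          _ = (g * k * g⁻¹)⁻¹ * z ^ f := by rw [← zc hz g⁻¹ f]; group
          _ = (k⁻¹ * z ^ f)⁻¹ * z ^ f := by rw [h3]
          _ = k := by
            rw [mul_inv_rev, inv_inv]
            have := zc hz k f
            calc (z ^ f)⁻¹ * k * z ^ f = (z ^ f)⁻¹ * (k * z ^ f) := by group
              _ = (z ^ f)⁻¹ * (z ^ f * k) := by rw [this]
              _ = k := by group
      have h5 : CM z (g * g) k := (CM_iff z _ _).2 ⟨0, by rw [h4]; simp⟩
      have h6 : CM z (g * g) c := by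
        rw [hcab]; exact CM_zpow_right hz h5 a b
      obtain ⟨s, t, hst⟩ := (hk _).1 h6
      -- conjugate by g
      have h7 : g * (k ^ s * z ^ t) * g⁻¹ = k ^ s * z ^ t := by rw [← hst]; group
      have h8 : k ^ (2 * s) ∈ zpowers z := by
        have h9 : g * (k ^ s * z ^ t) * g⁻¹ = (k⁻¹ * z ^ f) ^ s * z ^ t := by
          calc g * (k ^ s * z ^ t) * g⁻¹ = g * k ^ s * (z ^ t * g⁻¹) := by group
            _ = (g * k ^ s * g⁻¹) * z ^ t := by rw [← zc hz g⁻¹ t]; group
            _ = (g * k * g⁻¹) ^ s * z ^ t := by rw [_root_.conj_zpow]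
            _ = _ := by rw [h3]
        rw [h7] at h9
        have hkz : Commute (k⁻¹) (z ^ f) := (show Commute (k⁻¹) z from hz _).zpow_right f
        rw [hkz.mul_zpow] at h9
        have h10 : k ^ s = k⁻¹ ^ s * (z ^ f) ^ s := mul_right_cancel h9
        refine ⟨f * s, ?_⟩
        show z ^ (f * s) = k ^ (2 * s)
        rw [zpow_mul]
        have h11 : (z ^ f) ^ s = k ^ s * k ^ s := by
          rw [inv_zpow] at h10
          calc (z ^ f) ^ s = k ^ s * ((k ^ s)⁻¹ * (z ^ f) ^ s) := by group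
            _ = k ^ s * k ^ s := by rw [← h10]
        rw [h11, ← zpow_add]; congr 1; ring
      have hs0 : s = 0 := by
        have := hzero _ h8
        omega
      subst hs0
      have hgg : g * g = z ^ t := by rw [hst]; simp
      have hgz : g ∉ zpowers z := by
        intro h
        have h12 := mem_conj hz k h
        have h13 : g * k * g⁻¹ = k := by
          have : k * g = g * k := by
            calc k * g = (k * g * k⁻¹) * k := by group
              _ = g * k := by rw [h12]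
          rw [← this]; group
        rw [h13] at h3
        have h14 : k ^ (2:ℤ) ∈ zpowers z := by
          refine ⟨f, ?_⟩
          show z ^ f = k ^ (2:ℤ)
          calc z ^ f = k * (k⁻¹ * z ^ f) := by group
            _ = k * k := by rw [← h3]
            _ = k ^ (2:ℤ) := by rw [show (2:ℤ) = 1 + 1 by norm_num, zpow_add]; simp
        have := hzero _ h14
        omega
      have hgf : FO z g := ⟨2, by norm_num, ⟨t, by show z ^ t = g ^ 2; rw [pow_two, hgg]⟩⟩
      obtain ⟨κ, hκ, u, hu⟩ := hS.C3 g hgz hgf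
      have hu' : κ ^ u = g := hu
      have hzκ : z = κ ^ (n : ℤ) := by rw [← hκ]; simp
      have hnpos : (n : ℤ) ≠ 0 := by
        rcases hn with ⟨r, hr⟩
        omega
      have hκinf : ∀ m : ℤ, κ ^ m = 1 → m = 0 := by
        intro m hm
        have : z ^ m = 1 := by
          rw [hzκ, ← zpow_mul, mul_comm, zpow_mul, hm, one_zpow]
        exact hinf m this
      have h15 : 2 * u = n * t := by
        have h16 : κ ^ (2 * u) = κ ^ (n * t) := by
          rw [zpow_mul κ n t, ← hzκ, ← hgg, ← hu', two_mul, zpow_add]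
        have : κ ^ (2 * u - n * t) = 1 := by rw [zpow_sub, h16]; group
        have := hκinf _ this
        omega
      have h17 : (n : ℤ) ∣ u := by
        have hcop : IsCoprime (n : ℤ) 2 := by
          rcases hn with ⟨r, hr⟩
          refine ⟨1, -r, ?_⟩
          rw [hr]; push_cast; ring
        have : (n : ℤ) ∣ 2 * u := ⟨t, h15⟩
        exact hcop.dvd_of_dvd_mul_left this
      obtain ⟨v, hv⟩ := h17
      apply hgz
      refine ⟨v, ?_⟩
      show z ^ v = g
      rw [← hu', hv, zpow_mul, ← hzκ]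

end WA

end Pool.Agent.Lib.MP_7f190d_al
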